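import Pool.Agent.H76.PracA

set_option autoImplicit false

namespace Pool.Agent.Results.MP_2c8f22_co.Counter

open Polynomial

/-- `s` satisfies the linear recurrence with characteristic polynomial `f`. -/
def Gen (f : (ZMod 2)[X]) (s : ℕ → ZMod 2) : Prop :=
  ∀ n, ∑ j ∈ Finset.range (f.natDegree + 1), f.coeff j * s (n + j) = 0

/-- Doubly periodic binary `r₁ × r₂` arrays. -/
abbrev Arr (r₁ r₂ : ℕ) : Type := ZMod r₁ → ZMod r₂ → ZMod 2

/-- Cyclic shift of an array. -/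
def shift {r₁ r₂ : ℕ} (u : ZMod r₁) (v : ZMod r₂) (A : Arr r₁ r₂) : Arr r₁ r₂ :=
  fun i j => A (i + u) (j + v)

/-- The `n₁ × n₂` window at `(i, j)`. -/
def win {r₁ r₂ : ℕ} (n₁ n₂ : ℕ) (A : Arr r₁ r₂) (i : ZMod r₁) (j : ZMod r₂) :
    Fin n₁ → Fin n₂ → ZMod 2 :=
  fun a b => A (i + (a.val : ZMod r₁)) (j + (b.val : ZMod r₂))

/-- Pseudo-random array codes. -/
def PRAC (r₁ r₂ n₁ n₂ : ℕ) (C : Set (Arr r₁ r₂)) : Prop :=
  r₁ * r₂ ∣ 2 ^ (n₁ * n₂) - 1 ∧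
  (∀ W : Fin n₁ → Fin n₂ → ZMod 2, W ≠ 0 →
    ∃! p : Arr r₁ r₂ × ZMod r₁ × ZMod r₂, p.1 ∈ C ∧ win n₁ n₂ p.1 p.2.1 p.2.2 = W) ∧
  ∀ A ∈ C, ∀ B : Arr r₁ r₂, (B ∈ C ∧ B ≠ A) ∨ (∃ u v, (u, v) ≠ (0, 0) ∧ B = shift u v A) →
    ∃ E ∈ C, ∃ u v, A + B = shift u v E

/-- `A` is the folding of `s`. -/
def IsFold {r₁ r₂ : ℕ} (s : ℕ → ZMod 2) (A : Arr r₁ r₂) : Prop :=
  ∀ i < r₁ * r₂, A (i : ZMod r₁) (i : ZMod r₂) = s i

/-- `C` consists of foldings of nonzero sequences generated by `f`, exactly one for each class of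
such sequences under shifts. -/
def Folded {r₁ r₂ : ℕ} (f : (ZMod 2)[X]) (C : Set (Arr r₁ r₂)) : Prop :=
  (∀ A ∈ C, ∃ s, s ≠ 0 ∧ Gen f s ∧ IsFold s A) ∧
  ∀ s, s ≠ 0 → Gen f s → ∃! A, A ∈ C ∧ ∃ t, IsFold (fun n => s (n + t)) A

open H76.PracA

/-- Period 585. -/
def Per (s : ℕ → ZMod 2) : Prop := ∀ m, s (m + 585) = s m

/-- The folding as a function. -/
def fold (s : ℕ → ZMod 2) : Arr 5 117 := fun i j => s (351 * i.val + 235 * j.val)

theorem Per.congr {s : ℕ → ZMod 2} (h : Per s) {a b : ℕ} (e : a % 585 = b % 585) : s a = s b := by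
  rw [← Nat.mod_add_div a 585, ← Nat.mod_add_div b 585, per_mul h, per_mul h, e]

theorem Per.sh {s : ℕ → ZMod 2} (h : Per s) (t : ℕ) : Per fun n => s (n + t) :=
  fun _ => h.congr (by omega)

theorem fold_cast {s : ℕ → ZMod 2} (h : Per s) (a b : ℕ) :
    fold s (a : ZMod 5) (b : ZMod 117) = s (351 * a + 235 * b) := by
  rw [fold, ZMod.val_natCast, ZMod.val_natCast]
  exact h.congr (by omega)

theorem fold_nat {s : ℕ → ZMod 2} (h : Per s) (n : ℕ) :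
    fold s (n : ZMod 5) (n : ZMod 117) = s n := by
  rw [fold_cast h]
  exact h.congr (by omega)

theorem crt (i : ZMod 5) (j : ZMod 117) :
    ∃ t : ℕ, t < 585 ∧ (t : ZMod 5) = i ∧ (t : ZMod 117) = j := by
  obtain ⟨a, rfl⟩ := ZMod.natCast_zmod_surjective i
  obtain ⟨b, rfl⟩ := ZMod.natCast_zmod_surjective j
  refine ⟨(351 * a + 235 * b) % 585, Nat.mod_lt _ (by norm_num), ?_, ?_⟩ <;>
    rw [ZMod.natCast_eq_natCast_iff'] <;> omega

theorem isFold_iff {s : ℕ → ZMod 2} (h : Per s) {A : Arr 5 117} : IsFold s A ↔ A = fold s := by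
  refine ⟨fun e => ?_, fun e i _ => e ▸ fold_nat h i⟩
  funext i j
  obtain ⟨t, ht, rfl, rfl⟩ := crt i j
  rw [e t ht, fold_nat h]

theorem fold_inj {s s' : ℕ → ZMod 2} (h : Per s) (h' : Per s') (e : fold s = fold s') :
    s = s' := by
  funext n
  rw [← fold_nat h, e, fold_nat h']

theorem shift_fold {s : ℕ → ZMod 2} (h : Per s) (t : ℕ) :
    shift (t : ZMod 5) (t : ZMod 117) (fold s) = fold fun n => s (n + t) := by
  funext i j
  obtain ⟨n, -, rfl, rfl⟩ := crt i j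
  rw [shift, fold_nat (h.sh t), ← Nat.cast_add, ← Nat.cast_add, fold_nat h]

theorem win_fold {s : ℕ → ZMod 2} (h : Per s) (n₁ n₂ t : ℕ) (a : Fin n₁) (b : Fin n₂) :
    win n₁ n₂ (fold s) (t : ZMod 5) (t : ZMod 117) a b = s (t + (351 * a.val + 235 * b.val)) := by
  rw [win, ← Nat.cast_add, ← Nat.cast_add, fold_cast h]
  exact h.congr (by omega)

theorem Gen.sh {f : (ZMod 2)[X]} {s : ℕ → ZMod 2} (h : Gen f s) (t : ℕ) :
    Gen f fun n => s (n + t) := fun n => by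
  simpa only [add_right_comm _ _ t] using h (n + t)

theorem Gen.add {f : (ZMod 2)[X]} {s s' : ℕ → ZMod 2} (h : Gen f s) (h' : Gen f s') :
    Gen f (s + s') := fun n => by
  simp only [Pi.add_apply, mul_add, Finset.sum_add_distrib, h n, h' n, add_zero]

theorem ne_sh {s : ℕ → ZMod 2} (h : Per s) (h0 : s ≠ 0) (t : ℕ) : (fun n => s (n + t)) ≠ 0 := by
  intro e
  apply h0
  funext n
  exact (h.congr (by omega)).trans (congrFun e (n + 584 * t))

theorem ex_code {f : (ZMod 2)[X]} (hp : ∀ s, Gen f s → Per s) :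
    ∃ C : Set (Arr 5 117), Folded f C := by
  let R : Setoid {s : ℕ → ZMod 2 // s ≠ 0 ∧ Gen f s} :=
    ⟨fun s s' => ∃ t, s.1 = fun n => s'.1 (n + t), fun s => ⟨0, rfl⟩,
      fun {s s'} ⟨t, e⟩ => ⟨584 * t, by
        funext n
        rw [e]
        exact (hp _ s'.2.2).congr (by omega)⟩,
      fun {s s' s''} ⟨t, e⟩ ⟨t', e'⟩ => ⟨t + t', by rw [e, e']; simp only [add_assoc]⟩⟩
  refine ⟨{A | ∃ q : Quotient R, A = fold q.out.1}, ?_, fun s h0 hs => ?_⟩
  · rintro _ ⟨q, rfl⟩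
    exact ⟨_, q.out.2.1, q.out.2.2, (isFold_iff (hp _ q.out.2.2)).2 rfl⟩
  · obtain ⟨t, ht⟩ := Quotient.mk_out (s := R) ⟨s, h0, hs⟩
    refine ⟨_, ⟨⟨_, rfl⟩, t, (isFold_iff ((hp _ hs).sh t)).2 (congrArg fold ht)⟩, ?_⟩
    rintro _ ⟨⟨q, rfl⟩, t', e⟩
    have := fold_inj (hp _ q.out.2.2) ((hp _ hs).sh t') ((isFold_iff ((hp _ hs).sh t')).1 e)
    have : q = Quotient.mk R ⟨s, h0, hs⟩ := by
      rw [← q.out_eq]
      exact Quotient.sound ⟨t', this⟩
    rw [this]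

theorem gen_D {F d : ℕ} (hF : F.testBit d = true) {s : ℕ → ZMod 2} :
    Gen (P F d) s ↔ ∀ m, D (d + 1) F s m = 0 := by
  simp only [Gen, gen_iff hF]

theorem per_good {F : ℕ} (h : Good F) (s : ℕ → ZMod 2) (hs : Gen (P F 12) s) : Per s :=
  per (by norm_num) h.top h.per ((gen_D h.top).1 hs)

theorem eq_of_add {s s' : ℕ → ZMod 2} (h : s + s' = 0) : s = s' := by
  funext n
  have := congrFun h n
  simp only [Pi.add_apply, Pi.zero_apply] at this
  rw [← sub_eq_zero, sub_eq_add_neg, CharTwo.neg_eq, this]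

theorem prac {F : ℕ} (h : Good F) (C : Set (Arr 5 117)) (hC : Folded (P F 12) C) :
    PRAC 5 117 3 4 C := by
  have hp := per_good h
  have h1 : ∀ A ∈ C, ∃ s, s ≠ 0 ∧ Gen (P F 12) s ∧ A = fold s := fun A hA => by
    obtain ⟨s, h0, hs, e⟩ := hC.1 A hA
    exact ⟨s, h0, hs, (isFold_iff (hp s hs)).1 e⟩
  refine ⟨by norm_num, fun W hW => ?_, ?_⟩
  · obtain ⟨s, hs, hw⟩ := surj h W
    have hs' := (gen_D h.top).2 hs
    have h0 : s ≠ 0 := by
      rintro rfl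
      exact hW (by funext a b; exact (hw a b).symm)
    obtain ⟨A, ⟨hA, t, ht⟩, -⟩ := hC.2 s h0 hs'
    refine existsUnique_of_exists_of_unique ⟨(A, (584 * t : ℕ), (584 * t : ℕ)), hA, ?_⟩ ?_
    · funext a b
      rw [(isFold_iff ((hp _ hs').sh t)).1 ht, win_fold ((hp _ hs').sh t), ← hw]
      exact (hp _ hs').congr (by omega)
    · rintro ⟨A₁, i₁, j₁⟩ ⟨A₂, i₂, j₂⟩ ⟨m₁, e₁⟩ ⟨m₂, e₂⟩
      obtain ⟨s₁, n₁, g₁, rfl⟩ := h1 _ m₁
      obtain ⟨s₂, n₂, g₂, rfl⟩ := h1 _ m₂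
      obtain ⟨t₁, l₁, rfl, rfl⟩ := crt i₁ j₁
      obtain ⟨t₂, l₂, rfl, rfl⟩ := crt i₂ j₂
      have e : (fun n => s₁ (n + t₁)) = fun n => s₂ (n + t₂) := by
        refine eq_of_add (funext (winj h ((gen_D h.top).1 ((g₁.sh t₁).add (g₂.sh t₂))) ?_))
        intro a b
        have := congrFun (congrFun (e₁.trans e₂.symm) a) b
        simp only [win_fold (hp _ g₁), win_fold (hp _ g₂)] at this
        simp only [Pi.add_apply]
        rw [add_comm _ t₁, add_comm _ t₂, this, two]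
      have e' : fold s₁ = fold s₂ := by
        refine (hC.2 s₁ n₁ g₁).unique ⟨m₁, 0, (isFold_iff (hp _ g₁)).2 rfl⟩
          ⟨m₂, 584 * t₂ + t₁, (isFold_iff ((hp _ g₁).sh _)).2 (congrArg fold ?_)⟩
        funext n
        rw [← add_assoc]
        exact ((hp _ g₂).congr (by omega)).trans (congrFun e (n + 584 * t₂)).symm
      obtain rfl := fold_inj (hp _ g₁) (hp _ g₂) e'
      have : t₁ = t₂ := by
        by_contra hne
        apply n₁
        funext m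
        refine aper h ((gen_D h.top).1 g₁) (k := (t₁ + 584 * t₂) % 585)
          (Nat.mod_lt _ (by norm_num)) (by omega) (fun m => ?_) m
        exact ((hp _ g₁).congr (by omega)).trans ((congrFun e (m + 584 * t₂)).trans
          ((hp _ g₁).congr (by omega)))
      rw [this]
  · intro A hA B hB
    obtain ⟨s, h0, hs, rfl⟩ := h1 A hA
    have : ∃ s', Gen (P F 12) s' ∧ s ≠ s' ∧ B = fold s' := by
      rcases hB with ⟨hB, hne⟩ | ⟨u, v, huv, rfl⟩
      · obtain ⟨s', -, hs', rfl⟩ := h1 B hB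
        exact ⟨s', hs', fun e => hne (e ▸ rfl), rfl⟩
      · obtain ⟨t, ht, rfl, rfl⟩ := crt u v
        refine ⟨_, hs.sh t, fun e => h0 ?_, shift_fold (hp _ hs) t⟩
        funext m
        exact aper h ((gen_D h.top).1 hs) ht (by rintro rfl; simp at huv)
          (fun m => (congrFun e m).symm) m
    obtain ⟨s', hs', hne, rfl⟩ := this
    have g := hs.add hs'
    obtain ⟨E, ⟨hE, t, ht⟩, -⟩ := hC.2 (s + s') (fun e => hne (eq_of_add e)) g
    refine ⟨E, hE, (584 * t : ℕ), (584 * t : ℕ), ?_⟩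
    rw [(isFold_iff ((hp _ g).sh t)).1 ht, shift_fold ((hp _ g).sh t)]
    change fold (s + s') = _
    congr 1
    funext n
    exact (hp _ g).congr (by omega)

theorem per_prod (s : ℕ → ZMod 2) (hs : Gen (P 33327949 24) s) : Per s :=
  per (by norm_num) (by decide) per12 ((gen_D (by decide)).1 hs)

theorem not_prac (C : Set (Arr 5 117)) (hC : Folded (P 33327949 24) C) :
    ¬ PRAC 5 117 3 (2 * 4) C := by
  rintro ⟨-, h, -⟩
  obtain ⟨⟨A, i, j⟩, ⟨hA, e⟩, -⟩ := h (fun a b => if a = 0 ∧ b = 0 then 1 else 0)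
    (fun e => by simpa using congrFun (congrFun e 0) 0)
  obtain ⟨s, -, hs, hf⟩ := hC.1 A hA
  have hp := per_prod s hs
  obtain rfl := (isFold_iff hp).1 hf
  obtain ⟨t, -, rfl, rfl⟩ := crt i j
  have w : ∀ (a : Fin 3) (b : Fin (2 * 4)), s (t + (351 * a.val + 235 * b.val)) =
      if a = 0 ∧ b = 0 then 1 else 0 := fun a b => by
    rw [← win_fold hp]
    exact congrFun (congrFun e a) b
  have r := rel (by norm_num) (by decide) ((gen_D (by decide)).1 hs) dep t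
  have a0 : s (t + 0) = 1 := w 0 0
  have a1 : s (t + 235) = 0 := w 0 1
  have a2 : s (t + 940) = 0 := w 0 4
  have a3 : s (t + 1175) = 0 := w 0 5
  have a4 : s (t + 1645) = 0 := w 0 7
  have a5 : s (t + 1526) = 0 := w 1 5
  have a6 : s (t + 1761) = 0 := w 1 6
  have a7 : s (t + 1996) = 0 := w 1 7
  have a8 : s (t + 1172) = 0 := w 2 2
  simp only [List.map_cons, List.map_nil, List.sum_cons, List.sum_nil, a0, a1, a2, a3, a4, a5, a6,
    a7, a8] at r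
  exact absurd r (by decide)

/-- Two polynomials that give `(r₁, r₂; n₁, n₂)`-PRACs with `n₁ < r₁ < 2 n₁`, whose product does
not give an `(r₁, r₂; n₁, 2 n₂)`-PRAC. -/
theorem result : ∃ (r₁ r₂ n₁ n₂ : ℕ) (f₁ f₂ : (ZMod 2)[X]),
    n₁ < r₁ ∧ r₁ < 2 * n₁ ∧ 0 < r₂ ∧ 0 < n₂ ∧ Nat.Coprime r₁ r₂ ∧ f₁ ≠ f₂ ∧
    (∀ f ∈ ({f₁, f₂} : Set (ZMod 2)[X]), Irreducible f ∧ f.natDegree = n₁ * n₂ ∧ f.coeff 0 ≠ 0 ∧
      IsLeast {e : ℕ | 1 ≤ e ∧ f ∣ X ^ e - 1} (r₁ * r₂) ∧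
      (∃ C : Set (Arr r₁ r₂), Folded f C) ∧
      ∀ C : Set (Arr r₁ r₂), Folded f C → PRAC r₁ r₂ n₁ n₂ C) ∧
    (∃ C : Set (Arr r₁ r₂), Folded (f₁ * f₂) C) ∧
    ∀ C : Set (Arr r₁ r₂), Folded (f₁ * f₂) C → ¬ PRAC r₁ r₂ n₁ (2 * n₂) C := by
  refine ⟨5, 117, 3, 4, P 5563 12, P 6275 12, by norm_num, by norm_num, by norm_num, by norm_num,
    by norm_num, fun e => ?_, ?_, ?_, ?_⟩
  · have := congrArg (fun p => p.coeff 3) e
    simp only [coeff_P] at this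
    exact absurd this (by decide)
  · rintro f (rfl | rfl)
    · exact ⟨irr good1, deg_P good1.top, by rw [coeff_P]; decide, expo good1,
        ex_code (per_good good1), prac good1⟩
    · exact ⟨irr good2, deg_P good2.top, by rw [coeff_P]; decide, expo good2,
        ex_code (per_good good2), prac good2⟩
  · rw [H76.PracA.prod]
    exact ex_code per_prod
  · rw [H76.PracA.prod]
    exact not_prac

end Pool.Agent.Results.MP_2c8f22_co.Counter
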